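import Pool.Agent.Helper97_WHC.Stmt

/-!
# Squad WHC, row PWP: the power saving for positive operators
-/

set_option autoImplicit false

open scoped BigOperators

namespace Pool.Agent.WHC.H67

open Pool.Agent.DEN Pool.Agent.TMP Pool.Agent.WHT Pool.Agent.WHC

/-- The Cauchy-Schwarz inequality with weights. -/
theorem wcs {A : Type} (S : Finset A) {n : ℕ} (b : A → ℂ) (v : A → Fin n → ℂ) (T V : ℝ)
    (hb : ∑ a ∈ S, ‖b a‖ ≤ T) (hv : ∀ a ∈ S, ∑ j, ‖v a j‖ ^ 2 ≤ V) (hV : 0 ≤ V) :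
    ∑ j, ‖∑ a ∈ S, b a * v a j‖ ^ 2 ≤ T ^ 2 * V := by
  have h0 : 0 ≤ ∑ a ∈ S, ‖b a‖ := Finset.sum_nonneg fun _ _ => norm_nonneg _
  have h1 : ∀ j, ‖∑ a ∈ S, b a * v a j‖ ^ 2 ≤
      (∑ a ∈ S, ‖b a‖) * ∑ a ∈ S, ‖b a‖ * ‖v a j‖ ^ 2 := by
    intro j
    have h2 : ‖∑ a ∈ S, b a * v a j‖ ≤ ∑ a ∈ S, ‖b a‖ * ‖v a j‖ := by
      refine (norm_sum_le _ _).trans (le_of_eq ?_)
      exact Finset.sum_congr rfl fun a _ => norm_mul _ _
    refine (pow_le_pow_left₀ (norm_nonneg _) h2 2).trans ?_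
    refine Finset.sum_sq_le_sum_mul_sum_of_sq_le_mul S (fun a _ => norm_nonneg _)
      (fun a _ => by positivity) (fun a _ => le_of_eq (by ring))
  calc ∑ j, ‖∑ a ∈ S, b a * v a j‖ ^ 2
      ≤ ∑ j, (∑ a ∈ S, ‖b a‖) * ∑ a ∈ S, ‖b a‖ * ‖v a j‖ ^ 2 :=
        Finset.sum_le_sum fun j _ => h1 j
    _ = (∑ a ∈ S, ‖b a‖) * ∑ a ∈ S, ‖b a‖ * ∑ j, ‖v a j‖ ^ 2 := by
        rw [← Finset.mul_sum, Finset.sum_comm]
        congr 1
        refine Finset.sum_congr rfl fun a _ => ?_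
        rw [Finset.mul_sum]
    _ ≤ (∑ a ∈ S, ‖b a‖) * ∑ a ∈ S, ‖b a‖ * V := by
        refine mul_le_mul_of_nonneg_left (Finset.sum_le_sum fun a ha => ?_) h0
        exact mul_le_mul_of_nonneg_left (hv a ha) (norm_nonneg _)
    _ = (∑ a ∈ S, ‖b a‖) ^ 2 * V := by rw [← Finset.sum_mul]; ring
    _ ≤ T ^ 2 * V := mul_le_mul_of_nonneg_right (pow_le_pow_left₀ h0 hb 2) hV

theorem pwp (hRel : RelStmt) (hBnd : BndStmt) (hBsl : WHT.BslStmt) (hVol : VolStmt)
    (hPap : PapStmt) : PwpStmt := by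
  intro r C hC K _ _ N hN χ hχ m D hG hD n f hf κ R hκ hR hpos τ σ hτ hσ hnorm lam hlam hbig
  classical
  have hN0 : N ≠ 0 := by
    intro h
    rw [h] at hN
    simp at hN
  obtain ⟨hK1, -, -, hK4⟩ := Pool.Agent.TMP.hKhk r C hC K
  have hHk : DEN.TMP.Hk (maxK C K) κ := ⟨hκ.1, hκ.2.1⟩
  obtain ⟨k, hk, hkκ, hkn⟩ := hK4 κ hHk
  have hkxy : ∀ x y : XX C K, k x y = κ (x.out⁻¹ * y.out) := fun x y => by
    rw [(hK1 k hk).2.1 x y, ← hkκ]
  have hkR : Rad k R := by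
    intro g hg
    rw [← hkκ] at hg
    exact ⟨fun v hv => (hκ.2.2 g hg v hv).1, fun v hv => (hκ.2.2 g hg v hv).2⟩
  have hkpos : ∀ x y, k x y = (‖k x y‖ : ℂ) := fun x y => by
    rw [hkxy x y]
    exact hpos _
  set s := D / R with hs
  obtain ⟨k', hk', hR', hpos', hsum, hpow⟩ :=
    hPap r C hC K k τ R hk hτ.le (hkn τ hnorm) hkR hkpos s
  have hkab : kab k' = k' := by
    funext x y
    exact (hpos' x y).symm
  have hsR : s * R ≤ D := Nat.div_mul_le_self D R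
  have hDs : D < s * R + R := Nat.lt_div_mul_add (by omega)
  obtain ⟨-, hB1, hB2⟩ := hBnd r C hC K χ hχ.norm_one k' hk'
  obtain ⟨-, hB3⟩ := hB2 (s * R) hR'
  rw [hkab] at hB1
  have hfinS : {l | sat hC k' l ≠ 0}.Finite := (Pool.Agent.TMP.hSmu r C hC K).1 k' hk'
  have hGm : GoodU hC χ m := hG.2
  have hq : (1 : ℝ) < Nat.card K := by
    have : 1 < Nat.card K := Finite.one_lt_card
    exact_mod_cast this
  have hq0 : (0 : ℝ) < Nat.card K := by linarith
  -- the support of the row of `m`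
  have hfinB : {m' | bt hC χ k' m m' ≠ 0}.Finite := by
    refine (hfinS.image fun l => l + m).subset ?_
    intro m' hm'
    refine ⟨m' - m, ?_, sub_add_cancel m' m⟩
    intro h0
    apply hm'
    have h1 := hB1 m m'
    rw [h0, norm_zero] at h1
    exact norm_le_zero_iff.mp h1
  set S := hfinB.toFinset with hS
  have hmemS : ∀ m', m' ∈ S ↔ bt hC χ k' m m' ≠ 0 := fun m' => by
    rw [hS, Set.Finite.mem_toFinset]
    rfl
  have hbsum : ∑ m' ∈ S, ‖bt hC χ k' m m'‖ ≤ τ ^ s := by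
    refine le_trans ?_ hsum
    have e1 : ∑ᶠ l, ‖sat hC k' l‖ = ∑ l ∈ hfinS.toFinset, ‖sat hC k' l‖ := by
      refine finsum_eq_sum_of_support_subset _ ?_
      intro l hl
      rw [Function.mem_support] at hl
      rw [Finset.mem_coe, Set.Finite.mem_toFinset]
      exact fun h => hl (by rw [h, norm_zero])
    have hinj : Function.Injective (fun m' : Fin r → ℤ => m' - m) := fun a b h =>
      sub_left_injective h
    rw [e1]
    calc ∑ m' ∈ S, ‖bt hC χ k' m m'‖ ≤ ∑ m' ∈ S, ‖sat hC k' (m' - m)‖ :=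
          Finset.sum_le_sum fun m' _ => hB1 m m'
      _ = ∑ l ∈ S.image (fun m' => m' - m), ‖sat hC k' l‖ := by
          rw [Finset.sum_image fun a _ b _ h => hinj h]
      _ ≤ ∑ l ∈ hfinS.toFinset, ‖sat hC k' l‖ := by
          refine Finset.sum_le_sum_of_subset_of_nonneg ?_ fun _ _ _ => norm_nonneg _
          intro l hl
          rw [Finset.mem_image] at hl
          obtain ⟨m', hm', rfl⟩ := hl
          rw [Set.Finite.mem_toFinset]
          intro h0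
          rw [hmemS] at hm'
          apply hm'
          have h1 := hB1 m m'
          rw [h0, norm_zero] at h1
          exact norm_le_zero_iff.mp h1
  -- the mean square of the coefficients
  have hwvn : ∀ m' : Fin r → ℤ, GoodU hC χ m' → ∀ j,
      ‖wv hC N χ m' (f j)‖ ^ 2 = (Nat.card K : ℝ) ^ (2 * hv m') * ‖wh hC N χ m' (f j)‖ ^ 2 := by
    intro m' hm' j
    unfold wv
    rw [if_pos hm', norm_mul, norm_zpow, Complex.norm_natCast, mul_pow, ← zpow_natCast,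
      ← zpow_mul, mul_comm (hv m')]
    rfl
  set V := vol hC N m * (Nat.card K : ℝ) ^ (2 * hv m) with hV
  have hVpos : 0 ≤ V := mul_nonneg (hVol r C hC K N hN0 m m).1.le (zpow_nonneg hq0.le _)
  have hmean : ∀ m' ∈ S, ∑ j, ‖wv hC N χ m' (f j)‖ ^ 2 ≤ V := by
    intro m' hm'
    rw [hmemS] at hm'
    have hU : GoodU hC χ m' := by
      by_contra hcon
      apply hm'
      unfold bt
      rw [if_neg hcon]
    have hdom : IsDom C m' := by
      intro i
      have h1 := hB3 m m' hm' (hC.sr i)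
      rw [SimplyLaced.sr_val, ip_sub_right] at h1
      have h2 := hD i
      have h3 := (abs_le.mp h1).1
      have h4 : ((s * R : ℕ) : ℤ) ≤ (D : ℤ) := by exact_mod_cast hsR
      linarith
    calc ∑ j, ‖wv hC N χ m' (f j)‖ ^ 2
        = (Nat.card K : ℝ) ^ (2 * hv m') * ∑ j, ‖wh hC N χ m' (f j)‖ ^ 2 := by
          rw [Finset.mul_sum]
          exact Finset.sum_congr rfl fun j _ => hwvn m' hU j
      _ ≤ (Nat.card K : ℝ) ^ (2 * hv m') * vol hC N m' :=
          mul_le_mul_of_nonneg_left (hBsl r C hC K N hN χ hχ m' ⟨hdom, hU⟩ n f hf)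
            (zpow_nonneg hq0.le _)
      _ = V := by
          rw [hV, (hVol r C hC K N hN0 m m').2, mul_comm]
  -- the relation
  have hrel : ∀ j, lam j ^ s * wv hC N χ m (f j) =
      ∑ m' ∈ S, bt hC χ k' m m' * wv hC N χ m' (f j) := by
    intro j
    have h1 := (hRel r C hC K N hN0 χ hχ k' hk' (f j) (lam j ^ s)
      (fun γ hγ x => (hf.1 j).1 γ hγ.2 x)
      (hpow (f j) (lam j) fun x => by
        rw [← hlam j x]
        refine finsum_congr fun y => ?_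
        rw [hkxy x y]) m hGm).2
    rw [h1]
    refine finsum_eq_sum_of_support_subset _ ?_
    intro m' hm'
    rw [Function.mem_support] at hm'
    rw [Finset.mem_coe, hmemS]
    exact left_ne_zero_of_mul hm'
  have hτs : 0 < τ ^ (2 * s) := by positivity
  have hqm : (0 : ℝ) < (Nat.card K : ℝ) ^ (2 * hv m) := zpow_pos hq0 _
  have hmain : ∑ j, ‖lam j ^ s * wv hC N χ m (f j)‖ ^ 2 ≤ (τ ^ s) ^ 2 * V := by
    have h1 := wcs S (fun m' => bt hC χ k' m m') (fun m' j => wv hC N χ m' (f j)) (τ ^ s) V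
      hbsum hmean hVpos
    refine le_trans (le_of_eq ?_) h1
    exact Finset.sum_congr rfl fun j _ => by rw [hrel j]
  have hlow : ((Nat.card K : ℝ) ^ (2 * hv m) * τ ^ (2 * s)) *
      (((Nat.card K : ℝ) ^ (σ * R)) ^ (2 * s) * ∑ j, ‖wh hC N χ m (f j)‖ ^ 2) ≤
      ((Nat.card K : ℝ) ^ (2 * hv m) * τ ^ (2 * s)) * vol hC N m := by
    calc ((Nat.card K : ℝ) ^ (2 * hv m) * τ ^ (2 * s)) *
      (((Nat.card K : ℝ) ^ (σ * R)) ^ (2 * s) * ∑ j, ‖wh hC N χ m (f j)‖ ^ 2)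
        = ∑ j, ((Nat.card K : ℝ) ^ (σ * R) * τ) ^ (2 * s) *
            ((Nat.card K : ℝ) ^ (2 * hv m) * ‖wh hC N χ m (f j)‖ ^ 2) := by
          rw [Finset.mul_sum, Finset.mul_sum]
          refine Finset.sum_congr rfl fun j _ => ?_
          rw [mul_pow]
          ring
      _ ≤ ∑ j, ‖lam j ^ s * wv hC N χ m (f j)‖ ^ 2 := by
          refine Finset.sum_le_sum fun j _ => ?_
          rw [norm_mul, mul_pow ‖lam j ^ s‖, hwvn m hGm j]
          refine mul_le_mul_of_nonneg_right ?_ (by positivity)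
          rw [norm_pow, ← pow_mul, Nat.mul_comm s 2]
          exact pow_le_pow_left₀ (by positivity) (hbig j) _
      _ ≤ (τ ^ s) ^ 2 * V := hmain
      _ = ((Nat.card K : ℝ) ^ (2 * hv m) * τ ^ (2 * s)) * vol hC N m := by
          rw [hV, ← pow_mul, Nat.mul_comm s 2]
          ring
  have h3 : ((Nat.card K : ℝ) ^ (σ * R)) ^ (2 * s) * ∑ j, ‖wh hC N χ m (f j)‖ ^ 2 ≤
      vol hC N m := le_of_mul_le_mul_left hlow (mul_pos hqm hτs)
  have h4 : ((Nat.card K : ℝ) ^ (σ * R)) ^ (2 * s) = (Nat.card K : ℝ) ^ (σ * R * (2 * s : ℕ)) := by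
    rw [← Real.rpow_natCast, ← Real.rpow_mul hq0.le]
  have h5 : (Nat.card K : ℝ) ^ (2 * σ * ((D : ℝ) - R)) ≤
      ((Nat.card K : ℝ) ^ (σ * R)) ^ (2 * s) := by
    rw [h4]
    refine Real.rpow_le_rpow_of_exponent_le hq.le ?_
    have h6 : (D : ℝ) ≤ s * R + R := by exact_mod_cast hDs.le
    push_cast
    nlinarith
  have hSn : 0 ≤ ∑ j, ‖wh hC N χ m (f j)‖ ^ 2 := Finset.sum_nonneg fun _ _ => by positivity
  have h7 : (Nat.card K : ℝ) ^ (2 * σ * ((D : ℝ) - R)) * ∑ j, ‖wh hC N χ m (f j)‖ ^ 2 ≤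
      vol hC N m := (mul_le_mul_of_nonneg_right h5 hSn).trans h3
  have h8 : (0 : ℝ) < (Nat.card K : ℝ) ^ (2 * σ * ((D : ℝ) - R)) := Real.rpow_pos_of_pos hq0 _
  rw [Real.rpow_neg hq0.le, ← div_eq_inv_mul, le_div_iff₀ h8, mul_comm]
  exact h7

end Pool.Agent.WHC.H67
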